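import Mathlib

/-!
# Cubic bipartite graphs without a perfect matching acceptable for a given perfect matching

The two vertex classes are `A = {inl i}` and `B = {inr i}`, `i : Fin n`.

Construction.  Let `H` be the perfect matching `inl i - inr i`.  A bipartite graph `G` which is
edge-disjoint from `H` is a digraph `D` without loops (`inl i - inr j` is the arc `i → j`), a perfect
matching of `G` is a permutation `σ` with `D i (σ i)`, and it is acceptable for `H` exactly if `σ` has no
cycle of length two.  If `D` is the symmetric digraph of a cubic graph, then such a permutation is a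
2-factor, so there is none if the cubic graph has no perfect matching.  Here the cubic graph is
the graph with 16 vertices which consists of a vertex `c` and three branches joined to `c` by a bridge,
and the remaining vertices (if there are any, at least four) are arranged in a circle, with arcs from
`i` to `i + 1`, `i + 2`, `i + 3`.
-/

set_option autoImplicit false

namespace Pool.Agent.Results.MP_77df55_co.NoAcceptable

open SimpleGraph

/-- `G` is a `k`-regular bipartite graph with the classes `A = {inl i}` and `B = {inr i}`. -/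
def BipRegular {n : ℕ} (k : ℕ) (G : SimpleGraph (Fin n ⊕ Fin n)) : Prop :=
  (∀ i j, ¬ G.Adj (Sum.inl i) (Sum.inl j)) ∧ (∀ i j, ¬ G.Adj (Sum.inr i) (Sum.inr j)) ∧
    ∀ v, (G.neighborSet v).ncard = k

/-- The matching `M` is acceptable for `H`: no two edges `a b`, `a' b'` of `M` form a 4-cycle with two
edges `a b'`, `a' b` of `H`. -/
def Acceptable {n : ℕ} {G : SimpleGraph (Fin n ⊕ Fin n)} (H : SimpleGraph (Fin n ⊕ Fin n))
    (M : G.Subgraph) : Prop :=
  ∀ a a' b b' : Fin n, a ≠ a' → b ≠ b' → M.Adj (Sum.inl a) (Sum.inr b) →
    M.Adj (Sum.inl a') (Sum.inr b') →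
      ¬ (H.Adj (Sum.inl a) (Sum.inr b') ∧ H.Adj (Sum.inl a') (Sum.inr b))

/-- The neighbours in the cubic graph with 16 vertices: `0` is the central vertex, the branches are
`{1, ..., 5}`, `{6, ..., 10}`, `{11, ..., 15}`. -/
def nb : Fin 16 → Finset (Fin 16) :=
  ![{1, 6, 11},
    {0, 2, 3}, {1, 4, 5}, {1, 4, 5}, {2, 3, 5}, {2, 3, 4},
    {0, 7, 8}, {6, 9, 10}, {6, 9, 10}, {7, 8, 10}, {7, 8, 9},
    {0, 12, 13}, {11, 14, 15}, {11, 14, 15}, {12, 13, 15}, {12, 13, 14}]

/-- The digraph. -/
def D (m : ℕ) : Fin 16 ⊕ ZMod m → Fin 16 ⊕ ZMod m → Prop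
  | Sum.inl i, Sum.inl j => j ∈ nb i
  | Sum.inr i, Sum.inr j => j = i + 1 ∨ j = i + 2 ∨ j = i + 3
  | _, _ => False

lemma nb_symm (i j : Fin 16) : j ∈ nb i ↔ i ∈ nb j := by
  revert i j; decide

lemma nb_card (i : Fin 16) : (nb i).card = 3 := by
  revert i; decide

lemma nb_irrefl (i : Fin 16) : i ∉ nb i := by
  revert i; decide

/-- The three branches. -/
def branch : Fin 3 → Finset (Fin 16) := ![{1, 2, 3, 4, 5}, {6, 7, 8, 9, 10}, {11, 12, 13, 14, 15}]

/-- The root of a branch. -/
def root : Fin 3 → Fin 16 := ![1, 6, 11]

lemma branch_out (t : Fin 3) (i : Fin 16) (hi : i ∈ branch t) (j : Fin 16) (hj : j ∈ nb i) :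
    j ∈ branch t ∨ (i = root t ∧ j = 0) := by
  revert t i j; decide

lemma branch_card (t : Fin 3) : (branch t).card = 5 := by
  revert t; decide

lemma root_mem (t : Fin 3) : root t ∈ branch t := by
  revert t; decide

lemma zero_nmem (t : Fin 3) : (0 : Fin 16) ∉ branch t := by
  revert t; decide

lemma nb_zero (j : Fin 16) (hj : j ∈ nb 0) : ∃ t, j = root t := by
  revert j; decide

/-- The main point: a permutation along the arcs has a cycle of length two. -/
lemma two_cycle (m : ℕ) (σ : Fin 16 ⊕ ZMod m → Fin 16 ⊕ ZMod m) (hσ : Function.Injective σ)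
    (hD : ∀ i, D m i (σ i)) : ∃ i j, i ≠ j ∧ σ i = j ∧ σ j = i := by
  have h0 := hD (Sum.inl 0)
  rcases h : σ (Sum.inl 0) with j | j
  · rw [h] at h0
    obtain ⟨t, rfl⟩ := nb_zero j h0
    refine ⟨Sum.inl 0, Sum.inl (root t), ?_, h, ?_⟩
    · intro e
      have := Sum.inl.inj e
      exact zero_nmem t (this ▸ root_mem t)
    by_contra hne
    -- `σ` maps the branch into itself, minus the root
    have hmap : ∀ i ∈ branch t, ∃ j ∈ (branch t).erase (root t), σ (Sum.inl i) = Sum.inl j := by
      intro i hi
      have h1 := hD (Sum.inl i)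
      rcases h2 : σ (Sum.inl i) with j | j
      · rw [h2] at h1
        refine ⟨j, ?_, rfl⟩
        rcases branch_out t i hi j h1 with h3 | ⟨h3, h4⟩
        · refine Finset.mem_erase.2 ⟨?_, h3⟩
          rintro rfl
          have := hσ (h2.trans h.symm)
          have := Sum.inl.inj this
          exact zero_nmem t (this ▸ hi)
        · subst h3 h4
          exact absurd h2 hne
      · rw [h2] at h1
        exact h1.elim
    choose! f hf hf' using hmap
    have := Finset.card_le_card_of_injOn f hf (by
      intro i hi j hj hij
      have h3 := hf' i hi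
      have h4 := hf' j hj
      rw [hij, ← h4] at h3
      exact Sum.inl.inj (hσ h3))
    rw [Finset.card_erase_of_mem (root_mem t), branch_card t] at this
    omega
  · rw [h] at h0
    exact h0.elim

lemma zmod_ne (m : ℕ) (hm : 4 ≤ m) (k : ℕ) (hk : 0 < k) (hk' : k < 4) : (k : ZMod m) ≠ 0 := by
  rw [Ne, ZMod.natCast_eq_zero_iff]
  intro h
  have := Nat.le_of_dvd hk h
  omega

lemma three_ncard (m : ℕ) (hm : 4 ≤ m) (i : ZMod m) (s : ZMod m) (hs : s = 1 ∨ s = -1) :
    ({i + s * 1, i + s * 2, i + s * 3} : Set (ZMod m)).ncard = 3 := by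
  have h1 := zmod_ne m hm 1 (by norm_num) (by norm_num)
  have h2 := zmod_ne m hm 2 (by norm_num) (by norm_num)
  push_cast at h1 h2
  have hs' : s * s = 1 := by rcases hs with rfl | rfl <;> ring
  have key : ∀ a b : ZMod m, i + s * a = i + s * b → a = b := by
    intro a b h
    have h := add_left_cancel h
    have := congrArg (fun x => s * x) h
    simpa [← mul_assoc, hs'] using this
  rw [Set.ncard_eq_three]
  refine ⟨_, _, _, ?_, ?_, ?_, rfl⟩
  · intro h
    have := key _ _ h
    apply h1
    linear_combination -this
  · intro h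
    have := key _ _ h
    apply h2
    linear_combination -this
  · intro h
    have := key _ _ h
    apply h1
    linear_combination -this

lemma out_ncard (m : ℕ) (hm : 4 ≤ m) (v : Fin 16 ⊕ ZMod m) : {w | D m v w}.ncard = 3 := by
  rcases v with i | i
  · have : {w | D m (Sum.inl i) w} = Sum.inl '' (nb i : Set (Fin 16)) := by
      ext w
      rcases w with j | j <;> simp [D]
    rw [this, Set.ncard_image_of_injective _ Sum.inl_injective, Set.ncard_coe_finset, nb_card]
  · have : {w | D m (Sum.inr i) w} =
        Sum.inr '' ({i + 1 * 1, i + 1 * 2, i + 1 * 3} : Set (ZMod m)) := by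
      ext w
      rcases w with j | j
      · simp [D]
      · simp [D]
    rw [this, Set.ncard_image_of_injective _ Sum.inr_injective, three_ncard m hm i 1 (Or.inl rfl)]

lemma in_ncard (m : ℕ) (hm : 4 ≤ m) (w : Fin 16 ⊕ ZMod m) : {v | D m v w}.ncard = 3 := by
  rcases w with i | i
  · have : {v | D m v (Sum.inl i)} = Sum.inl '' (nb i : Set (Fin 16)) := by
      ext w
      rcases w with j | j
      · simp [D, nb_symm j i]
      · simp [D]
    rw [this, Set.ncard_image_of_injective _ Sum.inl_injective, Set.ncard_coe_finset, nb_card]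
  · have : {v | D m v (Sum.inr i)} =
        Sum.inr '' ({i + (-1) * 1, i + (-1) * 2, i + (-1) * 3} : Set (ZMod m)) := by
      ext w
      rcases w with j | j
      · simp [D]
      · simp only [D, Set.mem_setOf_eq, Set.mem_image, Set.mem_insert_iff, Set.mem_singleton_iff,
          Sum.inr.injEq, exists_eq_right]
        constructor
        · rintro (h | h | h)
          · left; linear_combination -h
          · right; left; linear_combination -h
          · right; right; linear_combination -h
        · rintro (h | h | h)
          · left; linear_combination -h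
          · right; left; linear_combination -h
          · right; right; linear_combination -h
    rw [this, Set.ncard_image_of_injective _ Sum.inr_injective, three_ncard m hm i (-1) (Or.inr rfl)]

lemma D_irrefl (m : ℕ) (hm : 4 ≤ m) (v : Fin 16 ⊕ ZMod m) : ¬ D m v v := by
  rcases v with i | i
  · exact nb_irrefl i
  · have h1 := zmod_ne m hm 1 (by norm_num) (by norm_num)
    have h2 := zmod_ne m hm 2 (by norm_num) (by norm_num)
    have h3 := zmod_ne m hm 3 (by norm_num) (by norm_num)
    push_cast at h1 h2 h3
    rintro (h | h | h)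
    · apply h1; linear_combination -h
    · apply h2; linear_combination -h
    · apply h3; linear_combination -h

/-- The bipartite graph of a relation. -/
def bip {n : ℕ} (R : Fin n → Fin n → Prop) : SimpleGraph (Fin n ⊕ Fin n) where
  Adj
    | Sum.inl i, Sum.inr j => R i j
    | Sum.inr j, Sum.inl i => R i j
    | _, _ => False
  symm := ⟨by
    rintro (i | i) (j | j) h
    · exact h
    · exact h
    · exact h
    · exact h⟩
  loopless := ⟨by
    rintro (i | i) h
    · exact h
    · exact h⟩

lemma bip_regular {n : ℕ} (k : ℕ) (R : Fin n → Fin n → Prop)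
    (h1 : ∀ i, {j | R i j}.ncard = k) (h2 : ∀ j, {i | R i j}.ncard = k) : BipRegular k (bip R) := by
  refine ⟨fun i j h => h, fun i j h => h, ?_⟩
  rintro (i | i)
  · have : (bip R).neighborSet (Sum.inl i) = Sum.inr '' {j | R i j} := by
      ext w
      rcases w with j | j
      · simp [bip, mem_neighborSet]
      · simp [bip, mem_neighborSet]
    rw [this, Set.ncard_image_of_injective _ Sum.inr_injective, h1]
  · have : (bip R).neighborSet (Sum.inr i) = Sum.inl '' {j | R j i} := by
      ext w
      rcases w with j | j
      · simp [bip, mem_neighborSet]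
      · simp [bip, mem_neighborSet]
    rw [this, Set.ncard_image_of_injective _ Sum.inl_injective, h2]

/-- For every `n ≥ 20` there are a 3-regular bipartite graph `G` and a 1-regular bipartite graph `H` with
the same classes of `n` vertices and without common edges, such that no perfect matching of `G` is
acceptable for `H`. -/
theorem result (n : ℕ) (hn : 20 ≤ n) :
    ∃ G H : SimpleGraph (Fin n ⊕ Fin n), BipRegular 3 G ∧ BipRegular 1 H ∧ Disjoint G H ∧
      ∀ M : G.Subgraph, M.IsPerfectMatching → ¬ Acceptable H M := by
  obtain ⟨m, rfl⟩ : ∃ m, n = 16 + m := ⟨n - 16, by omega⟩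
  have hm : 4 ≤ m := by omega
  haveI : NeZero m := ⟨by omega⟩
  have e : Fin (16 + m) ≃ Fin 16 ⊕ ZMod m :=
    Fintype.equivOfCardEq (by simp [ZMod.card])
  refine ⟨bip fun i j => D m (e i) (e j), bip fun i j => i = j, ?_, ?_, ?_, ?_⟩
  · apply bip_regular
    · intro i
      have : {j | D m (e i) (e j)} = e ⁻¹' {w | D m (e i) w} := rfl
      rw [this, Set.ncard_preimage_of_injective_subset_range e.injective
        (by simp [e.surjective.range_eq]), out_ncard m hm]
    · intro j
      have : {i | D m (e i) (e j)} = e ⁻¹' {v | D m v (e j)} := rfl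
      rw [this, Set.ncard_preimage_of_injective_subset_range e.injective
        (by simp [e.surjective.range_eq]), in_ncard m hm]
  · apply bip_regular
    · intro i
      have : {j | i = j} = {i} := by ext; simp [eq_comm]
      rw [this, Set.ncard_singleton]
    · intro i
      have : {j | j = i} = {i} := by ext; simp
      rw [this, Set.ncard_singleton]
  · rw [disjoint_iff_inf_le]
    rintro (i | i) (j | j) ⟨h1, h2⟩
    · exact h1
    · have h2 : i = j := h2
      subst h2
      exact D_irrefl m hm _ h1
    · have h2 : j = i := h2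
      subst h2
      exact D_irrefl m hm _ h1
    · exact h1
  · intro M hM hacc
    have hex : ∀ i, ∃ j, M.Adj (Sum.inl i) (Sum.inr j) := by
      intro i
      obtain ⟨w, hw, -⟩ := hM.1 (hM.2 (Sum.inl i))
      rcases w with j | j
      · exact (M.adj_sub hw).elim
      · exact ⟨j, hw⟩
    choose f hf using hex
    have hinj : Function.Injective f := by
      intro i j hij
      obtain ⟨w, hw, hw'⟩ := hM.1 (hM.2 (Sum.inr (f i)))
      have h1 := hw' _ (hf i).symm
      have h2 := hw' _ (by rw [hij]; exact (hf j).symm)
      exact Sum.inl.inj (h1.trans h2.symm)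
    obtain ⟨i, j, hij, h1, h2⟩ := two_cycle m (fun v => e (f (e.symm v)))
      (fun a b h => e.symm.injective (hinj (e.injective h))) (fun v => by
        have := M.adj_sub (hf (e.symm v))
        have h3 : D m (e (e.symm v)) (e (f (e.symm v))) := this
        rwa [e.apply_symm_apply] at h3)
    have h3 : f (e.symm i) = e.symm j := by
      apply e.injective; rw [e.apply_symm_apply]; exact h1
    have h4 : f (e.symm j) = e.symm i := by
      apply e.injective; rw [e.apply_symm_apply]; exact h2
    have hij' : e.symm i ≠ e.symm j := fun h => hij (e.symm.injective h)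
    refine hacc (e.symm i) (e.symm j) (e.symm j) (e.symm i) hij' hij'.symm ?_ ?_ ⟨?_, ?_⟩
    · have := hf (e.symm i); rwa [h3] at this
    · have := hf (e.symm j); rwa [h4] at this
    · rfl
    · rfl

end Pool.Agent.Results.MP_77df55_co.NoAcceptable
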